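import Mathlib
import Pool.Agent.Helper72.UD.Asm
import Pool.Agent.Helper87.UD.Defs

/-!
# Labels for all secrets from an efficient local representation of the unit ball graphs
-/

namespace Pool.Agent.Helper97.UD

open Pool.Agent.Helper72.ELR Pool.Agent.Helper72.UD Pool.Agent.Helper87.UD

/-- Labels in `ℕ` for all secrets at once, all thresholds. -/
theorem labels_nat {d : ℕ} (hd : 2 ≤ d) (h : HasELR (UnitBall d)) :
    ∃ (A : ℕ → ℕ → Prop) (c : ℕ), 1 ≤ c ∧ ∀ (M g D B : ℕ) [NeZero B],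
      ∃ (lp : Sec M g B → Pt M g D B → ℕ) (lh : Sec M g B → Nm M g D B → ℕ),
        (∀ S p, 1 ≤ lp S p ∧
          lp S p ≤ (Fintype.card (Pt M g D B) + Fintype.card (Nm M g D B)) ^ c) ∧
        (∀ S η, 1 ≤ lh S η ∧
          lh S η ≤ (Fintype.card (Pt M g D B) + Fintype.card (Nm M g D B)) ^ c) ∧
        ∀ S p i u v (θ : Fin D), A (lp S p) (lh S (nm S p i u v θ)) ↔
          θ.val < (p.1 u v).val + (tt S p i u v).toNat := by
  obtain ⟨A, c, hc, hA⟩ := labels_of_unitBall' hd h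
  refine ⟨A, c, hc, fun M g D B _ => ?_⟩
  have key : ∀ S : Sec M g B, ∃ (lP : Pt M g D B → ℕ) (lH : Nm M g D B → ℕ),
      (∀ p, 1 ≤ lP p ∧ lP p ≤ (Fintype.card (Pt M g D B) + Fintype.card (Nm M g D B)) ^ c) ∧
      (∀ η, 1 ≤ lH η ∧ lH η ≤ (Fintype.card (Pt M g D B) + Fintype.card (Nm M g D B)) ^ c) ∧
      ∀ p i u v (θ : Fin D), A (lP p) (lH (nm S p i u v θ)) ↔
          θ.val < (p.1 u v).val + (tt S p i u v).toNat := by
    intro S
    obtain ⟨lP, lH, h1, h2, h3⟩ := hA (Fin g ×ₗ Fin g) (Fin M) (Pt M g D B) (Nm M g D B) D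
      (fun p k => (p.1 (ofLex k).1 (ofLex k).2).val)
      (fun p i k => (tt S p i (ofLex k).1 (ofLex k).2).toNat)
      (fun p i k => by
        have h1 := (p.1 (ofLex k).1 (ofLex k).2).isLt
        have h2 := Bool.toNat_le (tt S p i (ofLex k).1 (ofLex k).2)
        show (p.1 (ofLex k).1 (ofLex k).2).val + (tt S p i (ofLex k).1 (ofLex k).2).toNat ≤ D
        omega)
      (fun η => η.1) (fun η => toLex (η.2.1, η.2.2.1))
      (fun η j k => (S j (ofLex k).1 (ofLex k).2 (η.2.2.2.1 j (ofLex k).1)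
        (η.2.2.2.2.1 j (ofLex k).2)).toNat)
      (fun η k => (η.2.2.2.2.2.1 (ofLex k).1 (ofLex k).2).val)
      (fun η => η.2.2.2.2.2.2.val)
    refine ⟨lP, lH, h1, h2, fun p i u v θ => ?_⟩
    refine h3 p (nm S p i u v θ) ?_ ?_
    · intro j hj k
      have hj' : j < i := hj
      simp only [nm, maskL, if_pos hj', tt]
    · intro k hk
      have hk' : (ofLex k).1 < u ∨ ((ofLex k).1 = u ∧ (ofLex k).2 < v) := by
        have h4 := (Prod.Lex.lt_iff).1 hk
        exact h4
      simp only [nm, maskD, if_pos hk', ss]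
      cases tt S p i (ofLex k).1 (ofLex k).2 <;> simp
  choose lp h1 using key
  choose lh h2 h3 h4 using h1
  exact ⟨lp, lh, h2, h3, h4⟩

/-- Labels in a finite type for all secrets at once, in the form of `core`. -/
theorem labels_fin {d : ℕ} (hd : 2 ≤ d) (h : HasELR (UnitBall d)) :
    ∃ c : ℕ, 1 ≤ c ∧ ∀ (M g D B : ℕ) [NeZero B],
      ∃ (lp : Sec M g B → Pt M g D B →
          Fin ((Fintype.card (Pt M g D B) + Fintype.card (Nm M g D B)) ^ c + 1))
        (lh : Sec M g B → Nm M g D B →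
          Fin ((Fintype.card (Pt M g D B) + Fintype.card (Nm M g D B)) ^ c + 1))
        (A : Fin ((Fintype.card (Pt M g D B) + Fintype.card (Nm M g D B)) ^ c + 1) →
          Fin ((Fintype.card (Pt M g D B) + Fintype.card (Nm M g D B)) ^ c + 1) → Bool),
        ∀ S p i u v, A (lp S p) (lh S (nm S p i u v (p.1 u v))) = tt S p i u v := by
  classical
  obtain ⟨A, c, hc, hA⟩ := labels_nat hd h
  refine ⟨c, hc, fun M g D B _ => ?_⟩
  obtain ⟨lp, lh, h1, h2, h3⟩ := hA M g D B
  refine ⟨fun S p => ⟨lp S p, Nat.lt_succ_of_le (h1 S p).2⟩,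
    fun S η => ⟨lh S η, Nat.lt_succ_of_le (h2 S η).2⟩,
    fun a b => decide (A a.val b.val), fun S p i u v => ?_⟩
  have h4 := h3 S p i u v (p.1 u v)
  cases ht : tt S p i u v
  · rw [ht] at h4
    simp only [Bool.toNat_false, add_zero, lt_irrefl, iff_false] at h4
    exact decide_eq_false h4
  · rw [ht] at h4
    simp only [Bool.toNat_true, Nat.lt_succ_self, iff_true] at h4
    exact decide_eq_true h4

end Pool.Agent.Helper97.UD
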